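import Pool.Agent.H999R5.RkF.Asm

/-!
# MP_e7fc82_pr: the inequality `(∗)` for tensors of bounded multilinear rank

For every order `r ≥ 1`, every `R`, every real `p ≥ 2` and all symmetric tensors `T_1, …, T_n` of
order `r` in dimension `d` and of multilinear rank at most `R`,
`E ‖∑ g_i T_i‖_{I_p} ≤ 2 r R^r (r^r / r!)² d^{1/2 - 1/p} (∑ ‖T_i‖_{I_p}²)^{1/2}`:
the inequality `(∗)`, with a constant depending on `r` and `R` only and without logarithm.
-/

set_option autoImplicit false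

namespace Pool.Agent.Results.MP_e7fc82_pr.BoundedRank

open MeasureTheory ProbabilityTheory Pool.Agent.H999R5.Inj Pool.Agent.H999R5.Rk

/-- The tensor type-two inequality for tensors of bounded multilinear rank. -/
theorem result :
    ∀ (r R : ℕ) (p : ℝ), 1 ≤ r → 2 ≤ p → ∀ d n : ℕ, 1 ≤ d →
      ∀ T : Fin n → (Fin r → Fin d) → ℝ, (∀ i, SymT (T i)) → (∀ i, MRank R (T i)) →
        Integrable (fun g => injNorm p (gs T g)) (gm n) ∧
        ∫ g, injNorm p (gs T g) ∂(gm n) ≤
          2 * r * (R : ℝ) ^ r * ((r : ℝ) ^ r / r.factorial) ^ 2 * (d : ℝ) ^ (1 / 2 - 1 / p) *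
            Real.sqrt (∑ i, injNorm p (T i) ^ 2) :=
  Pool.Agent.H999R5.Rk.asm_RES

end Pool.Agent.Results.MP_e7fc82_pr.BoundedRank
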