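import Pool.Agent.H999R5.Inj.Asm

/-!
# MP_e7fc82_pr: the matrix case `r = 2` of the inequality `(∗)`, for every `2 < p ≤ 4`

For symmetric `d × d` matrices `T_1, …, T_n` and every real `2 < p ≤ 4`,
`E ‖∑ g_i T_i‖_{I_p} ≤ 40 √(log(e d)) d^{1/2 - 1/p} (∑ ‖T_i‖_{I_p}²)^{1/2}`;
in particular `(∗)` holds for every pair `(2, p)` with `2 < p < 4`, with the exponent `1/2` of the
logarithm, an absolute constant and no dependence on `n`.
(The cases `p = 2` and `p ≥ 4` were known.)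
-/

set_option autoImplicit false

namespace Pool.Agent.Results.MP_e7fc82_pr.MatrixCase

open MeasureTheory ProbabilityTheory Pool.Agent.H999R5.Inj

/-- The matrix case of the tensor type-two inequality for all `2 < p ≤ 4`. -/
theorem result :
    (∀ p : ℝ, 2 < p → p ≤ 4 → ∀ d n : ℕ, 1 ≤ d → ∀ T : Fin n → (Fin 2 → Fin d) → ℝ,
      (∀ i, SymT (T i)) →
        Integrable (fun g => injNorm p (gs T g)) (gm n) ∧
        ∫ g, injNorm p (gs T g) ∂(gm n) ≤
          40 * Real.sqrt (Real.log (Real.exp 1 * d)) * (d : ℝ) ^ (1 / 2 - 1 / p) *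
            Real.sqrt (∑ i, injNorm p (T i) ^ 2)) ∧
    ∀ p : ℝ, 2 < p → p ≤ 4 → Star 2 p :=
  asm_RES

end Pool.Agent.Results.MP_e7fc82_pr.MatrixCase
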