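import Pool.Agent.H999R5.Gp.Asm

/-!
# MP_e7fc82_pr: the inequality `(∗)` for products of linear and quadratic forms, all `p ≥ 2`

For every order `r ≥ 3` and every real `p ≥ 2` there is a constant `C` such that for all symmetric
tensors `T_1, …, T_n` of order `r` whose forms `x ↦ ⟨T_i, x^{⊗ r}⟩` are products of linear and
quadratic forms,
`E ‖∑ g_i T_i‖_{I_p} ≤ C √(log(e d)) d^{1/2 - 1/p} (∑ ‖T_i‖_{I_p}²)^{1/2}`.
(The case `r = 2` of all symmetric matrices is the hand-in `MatrixCase`.)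
-/

set_option autoImplicit false

namespace Pool.Agent.Results.MP_e7fc82_pr.SplitForms

open MeasureTheory ProbabilityTheory Pool.Agent.H999R5.Inj Pool.Agent.H999R5.Sp

/-- The tensor type-two inequality for products of linear and quadratic forms. -/
theorem result :
    ∀ (r : ℕ) (p : ℝ), 3 ≤ r → 2 ≤ p → ∃ C : ℝ, 0 ≤ C ∧ ∀ d n : ℕ, 1 ≤ d →
      ∀ T : Fin n → (Fin r → Fin d) → ℝ, (∀ i, SymT (T i)) → (∀ i, Split (T i)) →
        Integrable (fun g => injNorm p (gs T g)) (gm n) ∧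
        ∫ g, injNorm p (gs T g) ∂(gm n) ≤
          C * Real.sqrt (Real.log (Real.exp 1 * d)) * (d : ℝ) ^ (1 / 2 - 1 / p) *
            Real.sqrt (∑ i, injNorm p (T i) ^ 2) := by
  intro r p hr hp
  obtain ⟨C, hC, h⟩ := Pool.Agent.H999R5.Gp.asm_RES p hp
  refine ⟨2 * C * (r : ℝ) ^ (r + 2) * ((2 * r + 1 : ℕ) : ℝ) ^ (2 * r * (2 * r + 1)),
    by positivity, ?_⟩
  intro d n hd T hS hT
  exact h r (by omega) d n hd T hS hT

end Pool.Agent.Results.MP_e7fc82_pr.SplitForms
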